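import Mathlib
import Pool.Agent.H1.RepB

open Filter Topology

namespace Pool.Agent.Results.MP_321233_an.OnePoint

theorem result : ∃ Λ : ℕ → ℂ, Function.Injective Λ ∧ (∀ n, ‖Λ n‖ < 1) ∧
    Tendsto Λ atTop (𝓝 1) ∧
    ∀ f : ℕ → ℂ, Summable (fun n => ‖f n‖ ^ 2) →
      ∃ c : ℕ → ℂ, Tendsto (fun N : ℕ => ∑' n : ℕ,
        ‖f n - ∑ k ∈ Finset.range N, c k * (starRingEnd ℂ (Λ k)) ^ n‖ ^ 2) atTop (𝓝 0) := by
  obtain ⟨Λ, h1, h2, h3, h4⟩ := H1.RepB.main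
  refine ⟨fun n => (Λ n : ℂ), fun n m h => h1 (Complex.ofReal_injective h), fun n => ?_, ?_,
    fun f hf => ?_⟩
  · rw [Complex.norm_real, Real.norm_of_nonneg (h2 n).1.le]; exact (h2 n).2
  · exact (Complex.continuous_ofReal.tendsto 1).comp h3
  · simpa using h4 f hf

end Pool.Agent.Results.MP_321233_an.OnePoint
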